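import Mathlib

/-!
MP_a93e77_co, Q1: a regular self-complementary graph `G` with `F(G) = V(G)` and `N(G) = E(G)` that
is not strongly regular.

`G` is the circulant graph on `ZMod 13` with connection set `{±1, ±2, ±4}`; multiplication by `8`
is an isomorphism from `G` onto its complement.
-/

set_option autoImplicit false

namespace Pool.Agent.Results.MP_a93e77_co.ThirteenVertices

section defs

variable {V : Type}

/-- `P` is an isomorphism-permutation of `G`. -/
def IsIsomorphismPermutation (G : SimpleGraph V) (P : Equiv.Perm V) : Prop :=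
  ∀ u v : V, u ≠ v → (G.Adj u v ↔ ¬ G.Adj (P u) (P v))

/-- `F(G)`: the vertices fixed by at least one isomorphism-permutation. -/
def F (G : SimpleGraph V) : Set V :=
  {v | ∃ P : Equiv.Perm V, IsIsomorphismPermutation G P ∧ P v = v}

/-- `N(G)`: the edges `uv` with `P u = v` or `P v = u` for some isomorphism-permutation `P`. -/
def N (G : SimpleGraph V) : Set (Sym2 V) :=
  {e | e ∈ G.edgeSet ∧ ∃ (u v : V) (P : Equiv.Perm V), e = s(u, v) ∧
    IsIsomorphismPermutation G P ∧ (P u = v ∨ P v = u)}

/-- `G` is regular. -/
def Regular (G : SimpleGraph V) : Prop := ∃ k : ℕ, ∀ v : V, (G.neighborSet v).ncard = k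

/-- `G` is strongly regular: it is regular, every edge lies in the same number of triangles and
every two distinct nonadjacent vertices have the same number of common neighbours. -/
def StronglyRegular (G : SimpleGraph V) : Prop :=
  Regular G ∧ (∃ l : ℕ, ∀ u v : V, G.Adj u v → (G.commonNeighbors u v).ncard = l) ∧
    ∃ m : ℕ, ∀ u v : V, u ≠ v → ¬ G.Adj u v → (G.commonNeighbors u v).ncard = m

end defs

/-- the connection set -/
def S (d : ZMod 13) : Bool :=
  decide (d = 1 ∨ d = 2 ∨ d = 4 ∨ d = 9 ∨ d = 11 ∨ d = 12)

/-- The circulant graph on `ZMod 13` with connection set `{±1, ±2, ±4}`. -/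
def G : SimpleGraph (ZMod 13) where
  Adj u v := S (u - v) = true
  symm := ⟨by decide⟩
  loopless := ⟨by decide⟩

/-- the permutation `x ↦ 8 (x - u) + v` -/
def P (u v : ZMod 13) : Equiv.Perm (ZMod 13) where
  toFun x := 8 * (x - u) + v
  invFun y := 5 * (y - v) + u
  left_inv := by
    intro x
    have h : (40 : ZMod 13) = 1 := by decide
    calc 5 * (8 * (x - u) + v - v) + u = 40 * (x - u) + u := by ring
      _ = x := by rw [h]; ring
  right_inv := by
    intro y
    have h : (40 : ZMod 13) = 1 := by decide
    calc 8 * (5 * (y - v) + u - u) + v = 40 * (y - v) + v := by ring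
      _ = y := by rw [h]; ring

theorem P_iso (u v : ZMod 13) : IsIsomorphismPermutation G (P u v) := by
  intro x y hxy
  have key : ∀ d : ZMod 13, d ≠ 0 → (S d = true ↔ ¬ (S (8 * d) = true)) := by decide
  have h := key (x - y) (sub_ne_zero.2 hxy)
  have e : P u v x - P u v y = 8 * (x - y) := by
    change (8 * (x - u) + v) - (8 * (y - u) + v) = _
    ring
  change S (x - y) = true ↔ ¬ (S (P u v x - P u v y) = true)
  rw [e]
  exact h

theorem P_apply (u v : ZMod 13) : P u v u = v := by
  change 8 * (u - u) + v = v
  ring

theorem G_regular : Regular G := by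
  refine ⟨6, ?_⟩
  intro v
  have : G.neighborSet v = ((Finset.univ.filter (fun w => S (v - w) = true) :
      Finset (ZMod 13)) : Set (ZMod 13)) := by
    ext w
    simp [SimpleGraph.mem_neighborSet, G]
  have key : ∀ v : ZMod 13, (Finset.univ.filter (fun w : ZMod 13 => S (v - w) = true)).card = 6 := by
    decide
  rw [this, Set.ncard_coe_finset]
  exact key v

theorem common (u v : ZMod 13) : (G.commonNeighbors u v).ncard =
    (Finset.univ.filter (fun w => S (u - w) = true ∧ S (v - w) = true)).card := by
  rw [← Set.ncard_coe_finset]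
  congr 1
  ext w
  simp [SimpleGraph.mem_commonNeighbors, G]

theorem not_stronglyRegular : ¬ StronglyRegular G := by
  rintro ⟨_, ⟨l, hl⟩, _⟩
  have h1 := hl 0 1 (by unfold G; decide)
  have h2 := hl 0 4 (by unfold G; decide)
  rw [common] at h1 h2
  have e1 : (Finset.univ.filter (fun w : ZMod 13 => S (0 - w) = true ∧ S (1 - w) = true)).card
      = 2 := by decide
  have e2 : (Finset.univ.filter (fun w : ZMod 13 => S (0 - w) = true ∧ S (4 - w) = true)).card
      = 1 := by decide
  omega

/-- There is a finite regular self-complementary graph `G`, with 13 vertices, such that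
`F(G) = V(G)` and `N(G) = E(G)` and `G` is not strongly regular. -/
theorem result : ∃ (V : Type) (_ : Fintype V) (G : SimpleGraph V), Fintype.card V = 13 ∧
    Regular G ∧ Nonempty (G ≃g Gᶜ) ∧ F G = Set.univ ∧ N G = G.edgeSet ∧ ¬ StronglyRegular G := by
  refine ⟨ZMod 13, inferInstance, G, ZMod.card 13, G_regular, ?_, ?_, ?_, not_stronglyRegular⟩
  · refine ⟨⟨P 0 0, ?_⟩⟩
    intro x y
    by_cases hxy : x = y
    · subst hxy
      simp
    · have h := P_iso 0 0 x y hxy
      rw [SimpleGraph.compl_adj]
      have hne : P 0 0 x ≠ P 0 0 y := fun h => hxy ((P 0 0).injective h)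
      constructor
      · intro h1
        exact h.2 h1.2
      · intro h1
        exact ⟨hne, h.1 h1⟩
  · ext v
    simp only [Set.mem_univ, iff_true]
    exact ⟨P v v, P_iso v v, P_apply v v⟩
  · ext e
    constructor
    · intro h
      exact h.1
    · intro h
      refine ⟨h, ?_⟩
      induction e with
      | h u v => exact ⟨u, v, P u v, rfl, P_iso u v, Or.inl (P_apply u v)⟩

end Pool.Agent.Results.MP_a93e77_co.ThirteenVertices
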